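import Pool.Agent.H298R3.Exp.OneParam

set_option autoImplicit false
set_option linter.unusedSectionVars false

/-!
# The Lie algebra of a closed subgroup of a Banach-Lie group, in the logarithmic chart
-/

open Filter Topology Metric Set
open scoped ContDiff Manifold

namespace Pool.Agent.Q183.FC

open Pool.Agent.H298R3.Exp

variable {E : Type*} [NormedAddCommGroup E] [NormedSpace ℝ E]
  {G : Type*} [TopologicalSpace G] [ChartedSpace E G] [Group G] [LieGroup 𝓘(ℝ, E) ∞ G]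
  {L : OpenPartialHomeomorph G E} {ρ : ℝ}

lemma symm_two_pow (hL : LogChart L ρ) (n : ℕ) {v : E} (hv : ‖(2:ℝ) ^ n • v‖ < ρ) :
    L.symm ((2:ℝ) ^ n • v) = L.symm v ^ (2 ^ n) := by
  induction n with
  | zero => simp
  | succ n ih =>
    have e : (2:ℝ) ^ (n + 1) • v = (2:ℝ) • ((2:ℝ) ^ n • v) := by rw [smul_smul, pow_succ']
    rw [e, norm_smul, Real.norm_of_nonneg (by norm_num : (0:ℝ) ≤ 2)] at hv
    have h0 := norm_nonneg ((2:ℝ) ^ n • v)
    have h1 : ‖(2:ℝ) ^ n • v‖ < ρ / 2 := by linarith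
    rw [e, hL.sq' h1, ih (by linarith), ← pow_add, pow_succ, mul_two]

lemma continuousAt_symm_of_lt (hL : LogChart L ρ) {v : E} (hv : ‖v‖ < ρ) :
    ContinuousAt L.symm v := L.symm.continuousAt (hL.mem_target hv)

/-- the Lie algebra of `H`, in the logarithmic chart -/
def hh (L : OpenPartialHomeomorph G E) (H : Subgroup G) : Set E :=
  {x | ∀ᶠ t in 𝓝 (0:ℝ), L.symm (t • x) ∈ H}

variable {H : Subgroup G}

lemma smul_mem_hh {x : E} (hx : x ∈ hh L H) (a : ℝ) : a • x ∈ hh L H := by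
  have h1 : Tendsto (fun t : ℝ => t * a) (𝓝 0) (𝓝 0) := by
    have : Continuous (fun t : ℝ => t * a) := by fun_prop
    have h := this.tendsto 0
    simpa using h
  have h2 := h1.eventually hx
  filter_upwards [h2] with t ht
  rw [smul_smul]; exact ht

lemma zero_mem_hh (hL : LogChart L ρ) : (0:E) ∈ hh L H := by
  refine Eventually.of_forall fun t => ?_
  rw [smul_zero, hL.symm_zero]; exact H.one_mem

lemma mem_of_hh (hL : LogChart L ρ) {x : E} (hx : x ∈ hh L H) (hxρ : ‖x‖ < ρ) :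
    L.symm x ∈ H := by
  have h1 : Tendsto (fun n : ℕ => ((2:ℝ) ^ n)⁻¹) atTop (𝓝 0) :=
    tendsto_inv_atTop_zero.comp (tendsto_pow_atTop_atTop_of_one_lt (by norm_num))
  obtain ⟨n, hn⟩ := (h1.eventually hx).exists
  have e : (2:ℝ) ^ n • (((2:ℝ) ^ n)⁻¹ • x) = x := by
    rw [smul_smul, mul_inv_cancel₀ (by positivity), one_smul]
  have h2 := symm_two_pow hL n (v := ((2:ℝ) ^ n)⁻¹ • x) (by rw [e]; exact hxρ)
  rw [e] at h2
  rw [h2]
  exact H.pow_mem hn _

/-- it suffices that `exp (t x) ∈ H` for `|t| < ε` -/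
lemma mem_hh_of_lt {x : E} {ε : ℝ} (hε : 0 < ε) (h : ∀ t : ℝ, |t| < ε → L.symm (t • x) ∈ H) :
    x ∈ hh L H := by
  have : ball (0:ℝ) ε ∈ 𝓝 (0:ℝ) := ball_mem_nhds _ hε
  filter_upwards [this] with t ht
  exact h t (by rwa [mem_ball_zero_iff, Real.norm_eq_abs] at ht)

lemma isClosed_hh (hL : LogChart L ρ) (hH : IsClosed (H : Set G)) : IsClosed (hh L H) := by
  refine isClosed_of_closure_subset fun x hx => ?_
  have hρ := hL.pos
  refine mem_hh_of_lt (ε := ρ / (‖x‖ + 1)) (by positivity) fun t ht => ?_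
  rw [lt_div_iff₀ (by positivity)] at ht
  have htx : ‖t • x‖ < ρ := by
    rw [norm_smul, Real.norm_eq_abs]
    nlinarith [abs_nonneg t]
  have h1 : ContinuousAt (fun y : E => L.symm (t • y)) x :=
    ContinuousAt.comp (f := fun y : E => t • y) (g := L.symm)
      (continuousAt_symm_of_lt hL htx) (by fun_prop)
  have h2 : ∃ᶠ y in 𝓝 x, y ∈ hh L H := mem_closure_iff_frequently.1 hx
  have h3 : ∀ᶠ y in 𝓝 x, ‖y‖ < ‖x‖ + 1 :=
    (continuous_norm.tendsto x).eventually (gt_mem_nhds (by linarith))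
  have h4 : ∃ᶠ y in 𝓝 x, L.symm (t • y) ∈ (H : Set G) := by
    refine (h2.and_eventually h3).mono ?_
    rintro y ⟨hy, hy1⟩
    refine mem_of_hh hL (smul_mem_hh hy t) ?_
    rw [norm_smul, Real.norm_eq_abs]
    nlinarith [abs_nonneg t, norm_nonneg y]
  exact hH.mem_of_frequently_of_tendsto h4 h1

lemma add_mem_aux (hL : LogChart L ρ) (hH : IsClosed (H : Set G)) {v w : E}
    (hv : v ∈ hh L H) (hw : w ∈ hh L H) (hn : ‖v‖ + ‖w‖ < ρ) : L.symm (v + w) ∈ H := by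
  have hρ := hL.pos
  have hvw : ‖v + w‖ < ρ := (norm_add_le _ _).trans_lt hn
  have hD := hasFDerivAt_MM hL.mem_atlas hL.one_mem hL.map_one
  have hM0 : MM L (0 : E × E) = 0 := by
    show L (L.symm (0:E) * L.symm (0:E)) = 0
    rw [hL.symm_zero, mul_one, hL.map_one]
  have hlim := hD.lim (v, w) (c := fun n : ℕ => (2:ℝ) ^ n) (l := atTop) (by
    have : (fun n : ℕ => ‖(2:ℝ) ^ n‖) = fun n => (2:ℝ) ^ n := by
      funext n; rw [Real.norm_of_nonneg (by positivity)]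
    rw [this]
    exact tendsto_pow_atTop_atTop_of_one_lt (by norm_num))
  simp only [zero_add, hM0, sub_zero] at hlim
  have hlim' : Tendsto (fun n : ℕ => (2:ℝ) ^ n • MM L (((2:ℝ) ^ n)⁻¹ • (v, w))) atTop
      (𝓝 (v + w)) := by simpa using hlim
  have hT : Tendsto (fun n : ℕ => L.symm ((2:ℝ) ^ n • MM L (((2:ℝ) ^ n)⁻¹ • (v, w)))) atTop
      (𝓝 (L.symm (v + w))) := (continuousAt_symm_of_lt hL hvw).tendsto.comp hlim'
  have h1 : Tendsto (fun n : ℕ => ((2:ℝ) ^ n)⁻¹ • (v, w)) atTop (𝓝 (0 : E × E)) := by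
    have h : Tendsto (fun n : ℕ => ((2:ℝ) ^ n)⁻¹) atTop (𝓝 0) :=
      tendsto_inv_atTop_zero.comp (tendsto_pow_atTop_atTop_of_one_lt (by norm_num))
    simpa using h.smul_const (v, w)
  have h2 : ∀ᶠ n : ℕ in atTop, ((2:ℝ) ^ n)⁻¹ • (v, w) ∈ Om L :=
    h1.eventually ((isOpen_Om hL.mem_atlas).mem_nhds (zero_mem_Om hL.one_mem hL.map_one))
  have h3 : ∀ᶠ n : ℕ in atTop, ‖(2:ℝ) ^ n • MM L (((2:ℝ) ^ n)⁻¹ • (v, w))‖ < ρ :=
    hlim'.norm.eventually (gt_mem_nhds hvw)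
  refine hH.mem_of_tendsto hT ?_
  filter_upwards [h2, h3] with n hn2 hn3
  rw [symm_two_pow hL n hn3]
  have h4 : L.symm (MM L (((2:ℝ) ^ n)⁻¹ • (v, w))) =
      L.symm (((2:ℝ) ^ n)⁻¹ • v) * L.symm (((2:ℝ) ^ n)⁻¹ • w) := L.left_inv hn2.2
  rw [h4]
  have h5 : ((2:ℝ) ^ n)⁻¹ ≤ 1 := inv_le_one_of_one_le₀ (one_le_pow₀ (by norm_num))
  have h6 : ∀ x : E, ‖x‖ < ρ → ‖((2:ℝ) ^ n)⁻¹ • x‖ < ρ := by
    intro x hx
    rw [norm_smul, Real.norm_of_nonneg (by positivity)]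
    exact lt_of_le_of_lt (mul_le_of_le_one_left (norm_nonneg _) h5) hx
  refine H.pow_mem (H.mul_mem ?_ ?_) _
  · exact mem_of_hh hL (smul_mem_hh hv _) (h6 v (by linarith [norm_nonneg w]))
  · exact mem_of_hh hL (smul_mem_hh hw _) (h6 w (by linarith [norm_nonneg v]))

lemma add_mem_hh (hL : LogChart L ρ) (hH : IsClosed (H : Set G)) {x y : E}
    (hx : x ∈ hh L H) (hy : y ∈ hh L H) : x + y ∈ hh L H := by
  have hρ := hL.pos
  refine mem_hh_of_lt (ε := ρ / (‖x‖ + ‖y‖ + 1)) (by positivity) fun t ht => ?_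
  rw [lt_div_iff₀ (by positivity)] at ht
  rw [smul_add]
  refine add_mem_aux hL hH (smul_mem_hh hx t) (smul_mem_hh hy t) ?_
  rw [norm_smul, norm_smul, Real.norm_eq_abs]
  nlinarith [abs_nonneg t]

/-- the Lie algebra of a closed subgroup -/
def hS (hL : LogChart L ρ) (hH : IsClosed (H : Set G)) : Submodule ℝ E where
  carrier := hh L H
  zero_mem' := zero_mem_hh hL
  add_mem' := add_mem_hh hL hH
  smul_mem' a _ hx := smul_mem_hh hx a

/-- velocities of one-parameter groups in `H` -/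
lemma velocity_mem (hL : LogChart L ρ) {γ : ℝ → G} (hadd : ∀ a b : ℝ, γ (a + b) = γ a * γ b)
    (hsm : ContMDiff 𝓘(ℝ, ℝ) 𝓘(ℝ, E) ∞ γ) (hH : ∀ t, γ t ∈ H) {x : E}
    (hx : mfderiv 𝓘(ℝ, ℝ) 𝓘(ℝ, E) γ 0 (1 : ℝ) = x) : x ∈ hh L H := by
  have hρ := hL.pos
  have h1 : γ 0 = 1 := by
    have := hadd 0 0
    rw [add_zero] at this
    exact left_eq_mul.1 this
  -- derivative in the chart at `1`
  have hd : HasDerivAt (fun t : ℝ => chartAt E (1:G) (γ t)) x 0 := by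
    have h2 : HasMFDerivAt 𝓘(ℝ, ℝ) 𝓘(ℝ, E) γ 0 (mfderiv 𝓘(ℝ, ℝ) 𝓘(ℝ, E) γ 0) :=
      ((hsm 0).mdifferentiableAt (by simp)).hasMFDerivAt
    have h3 := h2.2
    rw [writtenInExtChartAt] at h3
    simp only [extChartAt, OpenPartialHomeomorph.extend, modelWithCornersSelf_partialEquiv,
      PartialEquiv.trans_refl, chartAt_self_eq, OpenPartialHomeomorph.refl_partialEquiv,
      PartialEquiv.refl_symm, PartialEquiv.refl_coe, Function.comp_id, id,
      modelWithCornersSelf_coe, range_id, OpenPartialHomeomorph.toFun_eq_coe] at h3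
    have key : ∃ D : ℝ →L[ℝ] E, D 1 = x ∧
        HasFDerivWithinAt (fun t : ℝ => chartAt E (γ 0) (γ t)) D univ 0 := ⟨_, hx, h3⟩
    obtain ⟨D, hD1, hD⟩ := key
    rw [hasFDerivWithinAt_univ, h1] at hD
    rw [← hD1]
    exact hD.hasDerivAt
  have hγc : ContinuousAt γ 0 := (hsm 0).continuousAt
  have hu : HasDerivAt (fun t : ℝ => L (γ t)) x 0 := by
    have h2 : HasFDerivAt (fun v : E => L ((chartAt E (1:G)).symm v)) (ContinuousLinearMap.id ℝ E)
        ((fun t : ℝ => chartAt E (1:G) (γ t)) 0) := by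
      show HasFDerivAt _ _ (chartAt E (1:G) (γ 0))
      rw [h1]; exact hL.deriv
    have h3 := h2.comp_hasDerivAt (0:ℝ) hd
    refine h3.congr_of_eventuallyEq ?_
    have h4 : ∀ᶠ t in 𝓝 (0:ℝ), γ t ∈ (chartAt E (1:G)).source := by
      refine hγc ((chartAt E (1:G)).open_source.mem_nhds ?_)
      rw [h1]; exact mem_chart_source E 1
    filter_upwards [h4] with t ht
    show L (γ t) = L ((chartAt E (1:G)).symm (chartAt E (1:G) (γ t)))
    rw [(chartAt E (1:G)).left_inv ht]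
  -- good times
  have hev : ∀ᶠ t in 𝓝 (0:ℝ), γ t ∈ L.source ∧ ‖L (γ t)‖ < ρ / 2 := by
    refine Filter.Eventually.and ?_ ?_
    · refine hγc (L.open_source.mem_nhds ?_)
      rw [h1]; exact hL.one_mem
    · have h2 := hu.continuousAt.tendsto
      have h3 : L (γ 0) = 0 := by rw [h1, hL.map_one]
      rw [h3] at h2
      have hρ2 : 0 < ρ / 2 := by positivity
      exact h2.norm.eventually (by rw [norm_zero]; exact gt_mem_nhds hρ2)
  obtain ⟨δ, hδ, hb⟩ := Metric.eventually_nhds_iff_ball.1 hev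
  refine mem_hh_of_lt hδ fun t ht => ?_
  have hlin := eq_deriv_of_double (u := fun t : ℝ => L (γ t)) hu.hasFDerivAt (δ := δ) (by
    intro z hz
    have hz' := hb z (by rw [mem_ball_zero_iff]; linarith [norm_nonneg z])
    show L (γ ((2:ℝ) • z)) = (2:ℝ) • L (γ z)
    rw [← hL.map_mul_self hz'.1 hz'.2, ← hadd, smul_eq_mul, two_mul]) (z := t) (by
      rw [Real.norm_eq_abs]; exact ht)
  have h2 : t • x = L (γ t) := by
    rw [hlin]
    simp
  rw [h2, L.left_inv (hb t (by rw [mem_ball_zero_iff, Real.norm_eq_abs]; exact ht)).1]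
  exact hH t

end Pool.Agent.Q183.FC
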